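import Pool.Agent.Run7.h520.MZ.I

/-! Piece UP of project MZ (MP_5076ba_lc): algebraic closure and elementary embeddings. -/

set_option autoImplicit false

namespace Run7.h91.MZ
open FirstOrder FirstOrder.Language Run7.h520.MZ

/-- Sets definable over `A`, in terms of a formula with variables in `A` and one more variable. -/
theorem def1_iff (L : FirstOrder.Language.{0, 0}) {M : Type} [L.Structure M] (A : Set M) (D : Set M) :
    A.Definable₁ L D ↔ ∃ φ : L.Formula (A ⊕ Unit), ∀ x : M,
      x ∈ D ↔ φ.Realize (Sum.elim (fun a : A => (a : M)) (fun _ => x)) := by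
  rw [Set.Definable₁, Set.definable_iff_exists_formula_sum]
  constructor
  · rintro ⟨φ, hφ⟩
    refine ⟨φ.relabel (Sum.map id (fun _ => ())), fun x => ?_⟩
    have h : (fun _ : Fin 1 => x) ∈ {x : Fin 1 → M | x 0 ∈ D} ↔
        (fun _ : Fin 1 => x) ∈ {v : Fin 1 → M | φ.Realize (Sum.elim (fun a : A => (a : M)) v)} := by
      rw [hφ]
    simp only [Set.mem_ofPred_eq] at h
    rw [h, Formula.realize_relabel]
    have : (Sum.elim (fun a : A => (a : M)) (fun _ : Unit => x)) ∘ (Sum.map id (fun _ : Fin 1 => ())) =
        Sum.elim (fun a : A => (a : M)) (fun _ : Fin 1 => x) := by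
      funext i
      rcases i with i | i <;> rfl
    rw [this]
  · rintro ⟨φ, hφ⟩
    refine ⟨φ.relabel (Sum.map id (fun _ => 0)), ?_⟩
    ext v
    simp only [Set.mem_ofPred_eq]
    rw [hφ, Formula.realize_relabel]
    have : (Sum.elim (fun a : A => (a : M)) v) ∘ (Sum.map id (fun _ : Unit => (0 : Fin 1))) =
        Sum.elim (fun a : A => (a : M)) (fun _ : Unit => v 0) := by
      funext i
      rcases i with i | i <;> rfl
    rw [this]

/-- the formula saying that there are `k` different solutions -/
noncomputable def many {L : FirstOrder.Language.{0, 0}} {α : Type} (φ : L.Formula (α ⊕ Unit)) (k : ℕ) :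
    L.Formula α :=
  Formula.iExs (Fin k) (
    (Formula.iInf (fun i : Fin k => φ.relabel (Sum.map id (fun _ : Unit => i)))) ⊓
    (Formula.iInf (fun p : {p : Fin k × Fin k // p.1 ≠ p.2} =>
      (Term.equal (Term.var (Sum.inr p.1.1)) (Term.var (Sum.inr p.1.2)) : L.Formula (α ⊕ Fin k)).not)))

theorem many_realize {L : FirstOrder.Language.{0, 0}} {M : Type} [L.Structure M] {α : Type}
    (φ : L.Formula (α ⊕ Unit)) (k : ℕ) (v : α → M) :
    (many φ k).Realize v ↔ ∃ x : Fin k → M, Function.Injective x ∧
      ∀ i, φ.Realize (Sum.elim v (fun _ => x i)) := by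
  rw [many, Formula.realize_iExs]
  refine exists_congr fun x => ?_
  rw [Formula.realize_inf, Formula.realize_iInf, Formula.realize_iInf, and_comm]
  refine and_congr ?_ ?_
  · constructor
    · intro h i j hij
      by_contra hne
      have h1 := h ⟨(i, j), hne⟩
      rw [Formula.realize_not, Formula.realize_equal] at h1
      exact h1 (by simpa using hij)
    · rintro h ⟨p, hp⟩
      rw [Formula.realize_not, Formula.realize_equal]
      intro hc
      exact hp (h (by simpa using hc))
  · refine forall_congr' fun i => ?_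
    rw [Formula.realize_relabel]
    have : (Sum.elim v x) ∘ (Sum.map id (fun _ : Unit => i)) = Sum.elim v (fun _ : Unit => x i) := by
      funext j
      rcases j with j | j <;> rfl
    rw [this]

/-- `k` different elements and the cardinality -/
theorem emb_iff {M : Type} (D : Set M) (k : ℕ) :
    (∃ x : Fin k → M, Function.Injective x ∧ ∀ i, x i ∈ D) ↔ (k : ℕ∞) ≤ D.encard := by
  classical
  constructor
  · rintro ⟨x, hx, hxD⟩
    calc (k : ℕ∞) = (Set.range x).encard := by
          rw [← Set.image_univ, hx.encard_image, Set.encard_univ]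
          simp
      _ ≤ D.encard := Set.encard_le_encard (Set.range_subset_iff.2 hxD)
  · intro h
    obtain ⟨t, ht, htk⟩ := Set.exists_subset_encard_eq h
    have htf : t.Finite := Set.finite_of_encard_eq_coe htk
    have hcard : htf.toFinset.card = k := by
      have h1 := htf.encard_eq_coe_toFinset_card
      rw [htk] at h1
      exact_mod_cast h1.symm
    refine ⟨fun i => (htf.toFinset.equivFinOfCardEq hcard).symm i, ?_, ?_⟩
    · intro a b hab
      exact (htf.toFinset.equivFinOfCardEq hcard).symm.injective (Subtype.ext hab)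
    · intro i
      exact ht (htf.mem_toFinset.1 ((htf.toFinset.equivFinOfCardEq hcard).symm i).2)

/-- Two sets given by the same formula with corresponding parameters. -/
theorem key {L : FirstOrder.Language.{0, 0}} {M N : Type} [L.Structure M] [L.Structure N]
    (j : M ↪ₑ[L] N) {α : Type} (φ : L.Formula (α ⊕ Unit)) (v : α → M) (D : Set M) (E : Set N)
    (hD : ∀ x, x ∈ D ↔ φ.Realize (Sum.elim v (fun _ => x)))
    (hE : ∀ y, y ∈ E ↔ φ.Realize (Sum.elim (j ∘ v) (fun _ => y))) :
    (D.Finite ∨ E.Finite) → D.Finite ∧ E = j '' D := by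
  classical
  have hsub : j '' D ⊆ E := by
    rintro _ ⟨x, hx, rfl⟩
    rw [hE]
    rw [hD, ← j.map_formula] at hx
    have : (Sum.elim (j ∘ v) (fun _ : Unit => j x)) = j ∘ (Sum.elim v (fun _ : Unit => x)) := by
      funext i
      rcases i with i | i <;> rfl
    rw [this]
    exact hx
  have hk : ∀ k : ℕ, (∃ x : Fin k → M, Function.Injective x ∧ ∀ i, x i ∈ D) ↔
      (∃ y : Fin k → N, Function.Injective y ∧ ∀ i, y i ∈ E) := by
    intro k
    have h1 := many_realize φ k v
    have h2 := many_realize φ k (j ∘ v)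
    rw [j.map_formula] at h2
    simp only [hD, hE]
    rw [← h1, ← h2]
  have hc : D.encard = E.encard := by
    refine le_antisymm ?_ ?_
    · refine ENat.forall_natCast_le_iff_le.1 fun k h => ?_
      exact (emb_iff E k).1 ((hk k).1 ((emb_iff D k).2 h))
    · refine ENat.forall_natCast_le_iff_le.1 fun k h => ?_
      exact (emb_iff D k).1 ((hk k).2 ((emb_iff E k).2 h))
  intro hfin
  have hDf : D.Finite := by
    rcases hfin with h | h
    · exact h
    · rw [← Set.encard_lt_top_iff, hc, Set.encard_lt_top_iff]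
      exact h
  have hEf : E.Finite := by
    rw [← Set.encard_lt_top_iff, ← hc, Set.encard_lt_top_iff]
    exact hDf
  refine ⟨hDf, ?_⟩
  refine ((hDf.image j).eq_of_subset_of_encard_le hsub ?_).symm
  rw [j.injective.encard_image, hc]

/-- Algebraic closure and elementary embeddings. -/
theorem up : S_UP := by
  intro L M N _ _ j A
  ext c
  constructor
  · rintro ⟨s, hs, hdef, hc⟩
    obtain ⟨φ, hφ⟩ := (def1_iff L _ s).1 hdef
    -- the preimages of the parameters
    have hpre : ∀ b : (j '' A : Set N), ∃ a : A, j a = b := by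
      rintro ⟨_, a, ha, rfl⟩
      exact ⟨⟨a, ha⟩, rfl⟩
    choose g hg using hpre
    let φ' : L.Formula (A ⊕ Unit) := φ.relabel (Sum.map g id)
    let D : Set M := {x | φ'.Realize (Sum.elim (fun a : A => (a : M)) (fun _ => x))}
    have hE : ∀ y, y ∈ s ↔ φ'.Realize (Sum.elim (j ∘ (fun a : A => (a : M))) (fun _ => y)) := by
      intro y
      rw [hφ, Formula.realize_relabel]
      have : (Sum.elim (j ∘ (fun a : A => (a : M))) (fun _ : Unit => y)) ∘ (Sum.map g id) =
          Sum.elim (fun b : (j '' A : Set N) => (b : N)) (fun _ : Unit => y) := by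
        funext i
        rcases i with i | i
        · exact hg i
        · rfl
      rw [this]
    obtain ⟨hDf, hED⟩ := key j φ' _ D s (fun x => Iff.rfl) hE (Or.inr hs)
    rw [hED] at hc
    obtain ⟨x, hx, rfl⟩ := hc
    exact ⟨x, ⟨D, hDf, (def1_iff L A D).2 ⟨φ', fun _ => Iff.rfl⟩, hx⟩, rfl⟩
  · rintro ⟨x, ⟨D, hDf, hdef, hx⟩, rfl⟩
    obtain ⟨φ, hφ⟩ := (def1_iff L _ D).1 hdef
    let E : Set N := {y | φ.Realize (Sum.elim (j ∘ (fun a : A => (a : M))) (fun _ => y))}
    obtain ⟨-, hED⟩ := key j φ _ D E hφ (fun y => Iff.rfl) (Or.inl hDf)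
    refine ⟨E, ?_, ?_, ?_⟩
    · rw [hED]
      exact hDf.image _
    · refine (def1_iff L _ E).2 ⟨φ.relabel (Sum.map (fun a : A => (⟨j a, a, a.2, rfl⟩ : (j '' A : Set N))) id),
        fun y => ?_⟩
      rw [Formula.realize_relabel]
      have : (Sum.elim (fun b : (j '' A : Set N) => (b : N)) (fun _ : Unit => y)) ∘
          (Sum.map (fun a : A => (⟨j a, a, a.2, rfl⟩ : (j '' A : Set N))) id) =
          Sum.elim (j ∘ (fun a : A => (a : M))) (fun _ : Unit => y) := by
        funext i
        rcases i with i | i <;> rfl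
      rw [this]
      rfl
    · rw [hED]
      exact ⟨x, hx, rfl⟩

end Run7.h91.MZ
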